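/-
MP_afab79_al : exponent of torsion compact groups.

Abelian sections of locally finite profinite groups have uniformly bounded exponent.
-/
import Pool.Agent.Lib.MP_afab79_al.Wr.Final

namespace Pool.Agent.Results.MP_afab79_al.AbelianSections

/-- Let `G` be a profinite group whose two-generator subgroups are finite. Then there are
`y₁, y₂ ∈ G`, generating a finite subgroup `H`, and an open normal subgroup `M` with `H ∩ M = 1`
such that for all subgroups `A ≤ B ≤ M` normalised by `H` with `B / A` abelian (that is,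
`[B, B] ≤ A`) and for all `b ∈ B` one has `b ^ (|H| ^ 3) ∈ A`. -/
theorem result {G : Type*} [Group G] [TopologicalSpace G] [IsTopologicalGroup G]
    [CompactSpace G] [T2Space G] [TotallyDisconnectedSpace G]
    (hfin : ∀ x y : G, Finite (Subgroup.closure ({x, y} : Set G))) :
    ∃ (y₁ y₂ : G) (M : Subgroup G), M.Normal ∧ IsOpen (M : Set G) ∧
      Subgroup.closure ({y₁, y₂} : Set G) ⊓ M = ⊥ ∧
      ∀ A B : Subgroup G, A ≤ B → B ≤ M →
        (∀ h ∈ Subgroup.closure ({y₁, y₂} : Set G), ∀ a ∈ A, h * a * h⁻¹ ∈ A) →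
        (∀ h ∈ Subgroup.closure ({y₁, y₂} : Set G), ∀ b ∈ B, h * b * h⁻¹ ∈ B) →
        (∀ a ∈ B, ∀ b ∈ B, a * b * a⁻¹ * b⁻¹ ∈ A) →
        ∀ b ∈ B, b ^ (Nat.card (Subgroup.closure ({y₁, y₂} : Set G)) ^ 3) ∈ A := by
  obtain ⟨y, M, h1, h2⟩ := Lib.MP_afab79_al.Wr.exists_rigid hfin
  rw [Lib.MP_afab79_al.Wr.ev_range] at h1
  refine ⟨y.1, y.2, M.toSubgroup, M.isNormal', M.isOpen', h1, ?_⟩
  intro A B _ hBM hA hB hab b hb
  have hH : Finite (Lib.MP_afab79_al.Wr.ev y).range := by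
    rw [Lib.MP_afab79_al.Wr.ev_range]; exact hfin _ _
  rw [← Lib.MP_afab79_al.Wr.ev_range] at hA hB ⊢
  exact Lib.MP_afab79_al.Wr.abelian_section y A B hA hB
    (fun u hu v hv => h2 u (hBM hu) v (hBM hv)) hab b hb

end Pool.Agent.Results.MP_afab79_al.AbelianSections
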