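/-
MP_afab79_al : exponent of torsion compact groups.

A torsion pro-2 group in which some nonempty open set consists of elements of order dividing 4 has
finite exponent.
-/
import Pool.Agent.Lib.MP_afab79_al.E4.Final

namespace Pool.Agent.Results.MP_afab79_al.FourOpen

/-- Let `G` be a profinite group all of whose elements have 2-power order, and let `U` be a
nonempty open subset with `u ^ 4 = 1` for all `u ∈ U`. Then `G` has finite exponent. -/
theorem result {G : Type*} [Group G] [TopologicalSpace G] [IsTopologicalGroup G]
    [CompactSpace G] [T2Space G] [TotallyDisconnectedSpace G]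
    (htor : ∀ g : G, ∃ k : ℕ, g ^ 2 ^ k = 1)
    (U : Set G) (hU : IsOpen U) (hne : U.Nonempty) (h4 : ∀ u ∈ U, u ^ 4 = 1) :
    ∃ n : ℕ, 0 < n ∧ ∀ g : G, g ^ n = 1 :=
  Lib.MP_afab79_al.E4.four_open htor U hU hne h4

end Pool.Agent.Results.MP_afab79_al.FourOpen
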