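/-
MP_afab79_al : exponent of torsion compact groups.

Torsion profinite groups in which the subgroups generated by three elements of suitable open sets are
soluble of bounded derived length have finite exponent.
-/
import Pool.Agent.Lib.MP_afab79_al.Wr.Final

namespace Pool.Agent.Results.MP_afab79_al.SolubleThree

/-- Let `G` be a torsion profinite group, let `U₁` and `U₂` be nonempty open subsets, and suppose
that for all `x, y ∈ U₁` and `z ∈ U₂` the subgroup generated by `x, y, z` is soluble of derived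
length at most `l`. Then `G` has finite exponent. -/
theorem result {G : Type*} [Group G] [TopologicalSpace G] [IsTopologicalGroup G]
    [CompactSpace G] [T2Space G] [TotallyDisconnectedSpace G]
    (htor : ∀ g : G, ∃ n : ℕ, 0 < n ∧ g ^ n = 1) (l : ℕ) (U₁ U₂ : Set G)
    (hU₁ : IsOpen U₁) (hU₂ : IsOpen U₂) (hne₁ : U₁.Nonempty) (hne₂ : U₂.Nonempty)
    (hl : ∀ x ∈ U₁, ∀ y ∈ U₁, ∀ z ∈ U₂,
      derivedSeries (Subgroup.closure ({x, y, z} : Set G)) l = ⊥) :
    ∃ n : ℕ, 0 < n ∧ ∀ g : G, g ^ n = 1 :=
  Lib.MP_afab79_al.Wr.soluble_open htor l U₁ U₂ hU₁ hU₂ hne₁ hne₂ hl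

end Pool.Agent.Results.MP_afab79_al.SolubleThree
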