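/-
MP_afab79_al : exponent of torsion compact groups.

A criterion for finite exponent of locally finite pro-p groups in terms of the wreath products
`C_p ≀ C_{p ^ n}` involved in the three-generator subgroups.
-/
import Pool.Agent.Lib.MP_afab79_al.Wr.Final

namespace Pool.Agent.Results.MP_afab79_al.WreathCriterion

/-- The section `K / (K ∩ N)` involves the wreath product of a group of order `p` with a cyclic
group of order `p ^ n`: some subgroup `J` of `K` maps onto this wreath product by a homomorphism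
which is trivial on `J ∩ N`. -/
def InvolvesWreath {G : Type*} [Group G] (p n : ℕ) (K N : Subgroup G) : Prop :=
  ∃ (J : Subgroup G)
    (f : J →* RegularWreathProduct (Multiplicative (ZMod p)) (Multiplicative (ZMod (p ^ n)))),
    J ≤ K ∧ (∀ j : J, (j : G) ∈ N → f j = 1) ∧ Function.Surjective f

/-- `L` has a series `L = S 0 ≥ S 1 ≥ ... ≥ S l = 1` of subgroups normalised by `L` such that each
factor `S i / S (i + 1)` is abelian or does not involve the wreath product. -/
def HasSeries {G : Type*} [Group G] (p l n : ℕ) (L : Subgroup G) : Prop :=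
  ∃ S : ℕ → Subgroup G, S 0 = L ∧ S l = ⊥ ∧ (∀ i < l, S (i + 1) ≤ S i) ∧
    (∀ i ≤ l, ∀ x ∈ L, ∀ a ∈ S i, x * a * x⁻¹ ∈ S i) ∧
    ∀ i < l, (∀ a ∈ S i, ∀ b ∈ S i, a * b * a⁻¹ * b⁻¹ ∈ S (i + 1)) ∨
      ¬ InvolvesWreath p n (S i) (S (i + 1))

/-- Let `G` be a pro-`p` group whose elements have `p`-power order and whose three-generator
subgroups are finite. Then `G` has finite exponent if and only if there are nonempty open sets
`U₁, U₂` and numbers `l, n` such that for all `x, y ∈ U₁` and `z ∈ U₂` the subgroup `⟨x, y, z⟩` has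
a series of length `l` of subgroups which it normalises, with factors which are abelian or do not
involve the wreath product of a group of order `p` with a cyclic group of order `p ^ n`. -/
theorem result {G : Type*} [Group G] [TopologicalSpace G] [IsTopologicalGroup G]
    [CompactSpace G] [T2Space G] [TotallyDisconnectedSpace G] (p : ℕ) (hp : p.Prime)
    (hG : ∀ g : G, ∃ k : ℕ, g ^ p ^ k = 1)
    (hfin : ∀ x y z : G, Finite (Subgroup.closure ({x, y, z} : Set G))) :
    (∃ n : ℕ, 0 < n ∧ ∀ g : G, g ^ n = 1) ↔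
      ∃ (U₁ U₂ : Set G) (l n : ℕ), IsOpen U₁ ∧ IsOpen U₂ ∧ U₁.Nonempty ∧ U₂.Nonempty ∧
        ∀ x ∈ U₁, ∀ y ∈ U₁, ∀ z ∈ U₂, HasSeries p l n (Subgroup.closure ({x, y, z} : Set G)) := by
  have : Fact p.Prime := ⟨hp⟩
  constructor
  · rintro ⟨N, hN, h⟩
    exact ⟨Set.univ, Set.univ, 1, N, isOpen_univ, isOpen_univ, Set.univ_nonempty,
      Set.univ_nonempty, fun x _ y _ z _ => Lib.MP_afab79_al.Wr.good_of_exponent N hN h _⟩
  · rintro ⟨U₁, U₂, l, n, h1, h2, h3, h4, h5⟩
    exact Lib.MP_afab79_al.Wr.wreath_open hG U₁ U₂ h1 h2 h3 h4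
      (fun x _ y _ z _ => hfin x y z) l n h5

end Pool.Agent.Results.MP_afab79_al.WreathCriterion
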